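import Pool.Agent.Lib.MP_b93b26_nt.Ins.Final

set_option autoImplicit false

/-- For every odd `d ≥ 13` there is a form of degree `d` over the field of 2-adic numbers in
`n + 1 = (3 d² - 13 d + 12) / 2 > d²` variables whose only zero is the origin. -/
theorem Pool.Agent.Results.MP_b93b26_nt.EveryOddDegree.result
    (d : ℕ) (hodd : Odd d) (h13 : 13 ≤ d) :
    ∃ n : ℕ, d ^ 2 ≤ n ∧ 2 * (n + 1) + 13 * d = 3 * d ^ 2 + 12 ∧
      ∃ F : MvPolynomial (Fin (n + 1)) ℚ_[2], F.IsHomogeneous d ∧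
        ∀ x : Fin (n + 1) → ℚ_[2], MvPolynomial.eval x F = 0 → x = 0 := by
  have hm := Pool.Agent.MP_b93b26_nt.Ins.main d hodd (by omega)
  have h1 : 13 * d + 2 * d ^ 2 + 2 ≤ 3 * d ^ 2 + 12 := by nlinarith
  obtain ⟨k, hk⟩ := hodd
  have h2 : (3 * d ^ 2 - 13 * d + 12) % 2 = 0 := by
    subst hk
    have e : 3 * (2 * k + 1) ^ 2 = 12 * k ^ 2 + 12 * k + 3 := by ring
    rw [e] at h1 ⊢
    omega
  obtain ⟨n, hn⟩ : ∃ n, (3 * d ^ 2 - 13 * d + 12) / 2 = n + 1 :=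
    ⟨(3 * d ^ 2 - 13 * d + 12) / 2 - 1, by omega⟩
  rw [hn] at hm
  obtain ⟨F, hF, hF2⟩ := hm
  exact ⟨n, by omega, by omega, F, hF, hF2⟩
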